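import Pool.Agent.KS6_39.CZ.Emb

/-!
Finitely presented groups which are extensions of an infinite complete group by an infinite cyclic
group; every finitely presented group embeds in the complete kernel of such a group.
-/

namespace Pool.Agent.Results.MP_65b575_al.CompleteByCyclic

universe u

/-- A group is complete if each of its elements has an `m`-th root for every `m ≥ 1`. -/
def Complete (K : Type*) [Group K] : Prop :=
  ∀ g : K, ∀ m : ℕ, 1 ≤ m → ∃ h : K, h ^ m = g

open Pool.Agent.KS6_39.CZ

theorem infinite_of_complete {K : Type*} [Group K] (hK : Complete K) (hn : Nontrivial K) :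
    Infinite K := by
  by_contra hfin
  rw [not_infinite_iff_finite] at hfin
  obtain ⟨g, hg⟩ := exists_ne (1 : K)
  obtain ⟨h, hh⟩ := hK g (Nat.card K) Nat.card_pos
  exact hg (by rw [← hh]; exact pow_card_eq_one')

theorem result (H : Type u) [Group H] [Group.IsFinitelyPresented H] :
    ∃ (G : Type) (_ : Group G) (π : G →* Multiplicative ℤ) (ι : H →* G),
      Group.IsFinitelyPresented G ∧ Function.Surjective π ∧ Infinite π.ker ∧ Complete π.ker ∧
      Function.Injective ι ∧ ∀ h : H, ι h ∈ π.ker := by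
  obtain ⟨n, φ, hφ, R, hR, hker⟩ := Group.IsFinitelyPresented.out (G := H)
  obtain ⟨ζ, hζ⟩ := mm_De φ
  set N : Subgroup (GG (Fin n × Bool)) := Subgroup.normalClosure (De n '' R) with hN
  have hNpi : N ≤ pi.ker := by
    apply Subgroup.normalClosure_le_normal
    rintro _ ⟨w, -, rfl⟩
    exact pi_De w
  have hNmm : N ≤ (mm ζ).ker := by
    apply Subgroup.normalClosure_le_normal
    rintro _ ⟨w, hw, rfl⟩
    have : w ∈ φ.ker := by
      rw [← hker]; exact Subgroup.subset_normalClosure hw
    change mm ζ (De n w) = 1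
    rw [hζ, MonoidHom.mem_ker.mp this, map_one, map_one]
  have hk : φ.ker ≤ ((QuotientGroup.mk' N).comp (De n)).ker := by
    rw [← hker]
    apply Subgroup.normalClosure_le_normal
    intro w hw
    change QuotientGroup.mk' N (De n w) = 1
    rw [QuotientGroup.mk'_apply, QuotientGroup.eq_one_iff]
    exact Subgroup.subset_normalClosure ⟨w, hw, rfl⟩
  let G := GG (Fin n × Bool) ⧸ N
  let π : G →* Multiplicative ℤ := QuotientGroup.lift N pi hNpi
  let ι : H →* G := φ.liftOfSurjective hφ ⟨(QuotientGroup.mk' N).comp (De n), hk⟩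
  have hι : ∀ w, ι (φ w) = QuotientGroup.mk' N (De n w) := by
    intro w
    exact MonoidHom.liftOfRightInverse_comp_apply _ _ _ _ _
  have hfp : Group.IsFinitelyPresented G :=
    Group.IsFinitelyPresented.quotient N ⟨_, hR.image _, rfl⟩
  have hroot : ∀ g : G, π g = 1 → ∀ m : ℕ, 1 ≤ m → ∃ h : G, π h = 1 ∧ h ^ m = g := by
    intro g hg m hm
    obtain ⟨g', rfl⟩ := QuotientGroup.mk'_surjective N g
    obtain ⟨h', h1, h2⟩ := ker_complete (g := g') hg m hm
    exact ⟨QuotientGroup.mk' N h', h1, by rw [← map_pow, h2]⟩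
  have hcomp : Complete π.ker := by
    rintro ⟨g, hg⟩ m hm
    obtain ⟨h, h1, h2⟩ := hroot g hg m hm
    exact ⟨⟨h, h1⟩, Subtype.ext h2⟩
  have hinj : Function.Injective ι := by
    rw [injective_iff_map_eq_one]
    intro h hh
    obtain ⟨w, rfl⟩ := hφ h
    rw [hι, QuotientGroup.mk'_apply, QuotientGroup.eq_one_iff] at hh
    have h1 : mm ζ (De n w) = 1 := hNmm hh
    rw [hζ, ← map_one dgh] at h1
    have h2 := dgh_injective h1
    have h3 := congrArg (fun p : Equiv.Perm H => p 1) h2
    simpa using h3
  have hsurj : Function.Surjective π := by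
    intro k
    refine ⟨(QuotientGroup.mk' N tt) ^ (Multiplicative.toAdd k), ?_⟩
    rw [map_zpow]
    change (pi tt) ^ (Multiplicative.toAdd k) = k
    rw [pi_tt]
    apply Multiplicative.toAdd.injective
    simp
  refine ⟨G, inferInstance, π, ι, hfp, hsurj, ?_, hcomp, hinj, ?_⟩
  · -- the kernel is infinite
    refine infinite_of_complete hcomp ⟨⟨QuotientGroup.mk' N (ee 0 1 none), pi_ee 0 1 none⟩, 1, ?_⟩
    intro h4
    have h5 : QuotientGroup.mk' N (ee 0 1 none) = 1 := congrArg Subtype.val h4
    rw [QuotientGroup.mk'_apply, QuotientGroup.eq_one_iff] at h5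
    have h6 : mm ζ (ee 0 1 none) = 1 := hNmm h5
    rw [mm_ee] at h6
    have h7 := congrArg (fun m : GL5 (LL (ℕ × H)) => m.val 0 1) h6
    simp only [tv_val LL_char2 (show (0 : Fin 5) ≠ 1 by decide), Units.val_one, Matrix.add_apply,
      Matrix.single_apply_same, vO] at h7
    rw [Matrix.one_apply_ne (by decide), zero_add] at h7
    have h8 := congrArg (fun r : LL (ℕ × H) => r (fun _ => 1) (fun _ => (0, 1))) h7
    simp at h8
  · intro h
    obtain ⟨w, rfl⟩ := hφ h
    rw [hι]
    exact pi_De w

end Pool.Agent.Results.MP_65b575_al.CompleteByCyclic
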